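import Pool.Agent.Helper54.R1.Geo

set_option autoImplicit false

/-! # Region R1: packet NEAR3 (some `L` longitude is near any given longitude) -/

namespace Pool.Agent.Helper83.R1

open Real Pool.Agent.Helper66.Kiss Pool.Agent.Helper54.R1

theorem near3_aux {x : ℝ} (hx : |x| ≤ T0 + 65 / 1000) : 52 / 100 ≤ cos x := by
  have h3 : (0 : ℝ) < √3 := Real.sqrt_pos.2 (by norm_num)
  have h3sq : √3 ^ 2 = (3 : ℝ) := Real.sq_sqrt (by norm_num)
  have h3le : √3 ≤ 17321 / 10000 := by
    by_contra hcon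
    push Not at hcon
    nlinarith
  have h3ge : 1 ≤ √3 := by
    by_contra hcon
    push Not at hcon
    nlinarith
  have hq1 : (1 : ℝ) / √3 ≤ 1 := by
    rw [div_le_one h3]
    exact h3ge
  have hq0 : 0 ≤ (1 : ℝ) / √3 := by positivity
  have hq2 : 577 / 1000 ≤ (1 : ℝ) / √3 := by
    rw [le_div_iff₀ h3]
    nlinarith
  have hcT : cos T0 = 1 / √3 := Real.cos_arccos (by linarith) hq1
  have hT0 : 0 ≤ T0 := Real.arccos_nonneg _
  have hT1 : T0 ≤ π / 2 := Real.arccos_le_pi_div_two.2 hq0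
  have hpi := Real.pi_gt_three
  have h4 : cos (T0 + 65 / 1000) ≤ cos x := by
    rw [← Real.cos_abs x]
    exact Real.cos_le_cos_of_nonneg_of_le_pi (abs_nonneg x) (by linarith) hx
  refine le_trans ?_ h4
  rw [Real.cos_add, hcT]
  have h5 := Real.one_sub_sq_div_two_le_cos (x := 65 / 1000)
  have h6 : sin (65 / 1000) ≤ 65 / 1000 := Real.sin_le (by norm_num)
  have h7 : 0 ≤ sin (65 / 1000) := Real.sin_nonneg_of_nonneg_of_le_pi (by norm_num) (by linarith)
  have h8 : sin T0 ≤ 817 / 1000 := by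
    have e1 := Real.sin_sq_add_cos_sq T0
    rw [hcT, div_pow, h3sq] at e1
    by_contra hcon
    push Not at hcon
    nlinarith
  have h9 : sin T0 * sin (65 / 1000) ≤ 817 / 1000 * (65 / 1000) :=
    mul_le_mul h8 h6 h7 (by norm_num)
  have h10 : 577 / 1000 * (1 - (65 / 1000) ^ 2 / 2) ≤ 1 / √3 * cos (65 / 1000) := by
    refine mul_le_mul hq2 h5 (by norm_num) hq0
  nlinarith

theorem near3 : Pool.Agent.Helper54.R1.NEAR3_stmt := by
  intro t a h01 h12 h23 h30 g0 g1 g2 g3
  -- reduce to `a ∈ [t 0, t 0 + 2π)`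
  have key : ∀ a' : ℝ, t 0 ≤ a' → a' ≤ t 0 + 2 * π → ∃ k, 52 / 100 ≤ cos (a' - t k) := by
    intro a' ha0 ha1
    rcases le_total a' (t 1) with h | h
    · rcases le_total (a' - t 0) (T0 + 65 / 1000) with h' | h'
      · exact ⟨0, near3_aux (by rw [abs_le]; constructor <;> linarith)⟩
      · exact ⟨1, near3_aux (by rw [abs_le]; constructor <;> linarith)⟩
    rcases le_total a' (t 2) with h2 | h2
    · rcases le_total (a' - t 1) (T0 + 65 / 1000) with h' | h'
      · exact ⟨1, near3_aux (by rw [abs_le]; constructor <;> linarith)⟩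
      · exact ⟨2, near3_aux (by rw [abs_le]; constructor <;> linarith)⟩
    rcases le_total a' (t 3) with h3 | h3
    · rcases le_total (a' - t 2) (T0 + 65 / 1000) with h' | h'
      · exact ⟨2, near3_aux (by rw [abs_le]; constructor <;> linarith)⟩
      · exact ⟨3, near3_aux (by rw [abs_le]; constructor <;> linarith)⟩
    rcases le_total (a' - t 3) (T0 + 65 / 1000) with h' | h'
    · exact ⟨3, near3_aux (by rw [abs_le]; constructor <;> linarith)⟩
    · refine ⟨0, ?_⟩
      rw [← Real.cos_sub_two_pi]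
      exact near3_aux (by rw [abs_le]; constructor <;> linarith)
  have hm := toIcoMod_mem_Ico Real.two_pi_pos (t 0) a
  obtain ⟨k, hk⟩ := key (toIcoMod Real.two_pi_pos (t 0) a) hm.1 hm.2.le
  refine ⟨k, ?_⟩
  have h1 : toIcoMod Real.two_pi_pos (t 0) a = a - toIcoDiv Real.two_pi_pos (t 0) a • (2 * π) := rfl
  rw [h1] at hk
  have h2 : cos (a - toIcoDiv Real.two_pi_pos (t 0) a • (2 * π) - t k) = cos (a - t k) := by
    have h3 : a - toIcoDiv Real.two_pi_pos (t 0) a • (2 * π) - t k =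
        (a - t k) - (toIcoDiv Real.two_pi_pos (t 0) a : ℤ) * (2 * π) := by
      rw [zsmul_eq_mul]; ring
    rw [h3, Real.cos_sub_int_mul_two_pi]
  rwa [h2] at hk

end Pool.Agent.Helper83.R1
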